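import Pool.Agent.R489.HB.Stm

set_option autoImplicit false

namespace Pool.Agent.R184.HB

open Pool.Agent.R489.HB

theorem STR : S_STR := by
  rintro V W G H a c φ hφ hadj ⟨⟨hc, hac⟩, hin, h3, h4⟩
  refine ⟨⟨fun u w => hc _ _, fun i => ?_⟩, ?_, ?_, ?_⟩
  · exact SimpleGraph.IsAcyclic.comap
      (⟨φ, fun {u w} h => ⟨hadj _ _ h.1, h.2⟩⟩ :
        part G (fun u w => c (φ u) (φ w)) (fun u w => hc _ _) i →g part H c hc i) hφ (hac i)
  · exact SimpleGraph.IsAcyclic.comap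
      (⟨φ, fun {u w} h => ⟨hadj _ _ h.1, h.2⟩⟩ :
        inside G (fun u => a (φ u)) →g inside H a) hφ hin
  · intro i u w h hi
    exact h3 i _ _ (hadj _ _ h) hi
  · intro i u w w' ha h1 h2 h5 h6
    exact hφ (h4 i _ _ _ ha (hadj _ _ h1) h2 (hadj _ _ h5) h6)

end Pool.Agent.R184.HB
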